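import Mathlib.Data.Nat.Prime.Basic

/-!
Group V: kernel verification of all `n` below the analytic thresholds.
Plan: team-store `MP_0e0027_plan_V.md`.
-/

set_option autoImplicit false

namespace Pool.Agent.Lib.MP_0e0027_nt.Ex

/-- `n` is a sum of four pairwise coprime squares (natural numbers) -/
def Rep4 (n : ℕ) : Prop := ∃ a b c d : ℕ, a ^ 2 + b ^ 2 + c ^ 2 + d ^ 2 = n ∧
  a.Coprime b ∧ a.Coprime c ∧ a.Coprime d ∧ b.Coprime c ∧ b.Coprime d ∧ c.Coprime d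

/-- the necessary congruence conditions -/
def Adm (n : ℕ) : Prop := (n % 8 = 3 ∨ n % 8 = 4 ∨ n % 8 = 7) ∧ n % 3 ≠ 2

/-- threshold for odd `n` -/
def N0o : ℕ := 3 * 10 ^ 19

/-- threshold for `n` divisible by `4` -/
def N0e : ℕ := 3 * 10 ^ 18

/-- `l` is a sum of two coprime positive squares -/
def P2 (l : ℕ) : Prop := ∃ x y : ℕ, 0 < x ∧ 0 < y ∧ x ^ 2 + y ^ 2 = l ∧ x.Coprime y

/-- VA: `l = 1 mod 4` or `l = 2 mod 8` without prime factor `3 mod 4` is primitive -/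
def StVA : Prop := ∀ l : ℕ, 2 ≤ l → (l % 4 = 1 ∨ l % 8 = 2) →
  (∀ q : ℕ, q.Prime → q % 4 = 3 → ¬ q ∣ l) → P2 l

/-- the final statement of group V -/
def StVer : Prop := ∀ n : ℕ, Adm n → n ≠ 100 → n ≠ 268 →
  (n % 2 = 1 → n < N0o) → (n % 2 = 0 → n < N0e) → Rep4 n

end Pool.Agent.Lib.MP_0e0027_nt.Ex
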