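import Mathlib.Analysis.Real.Pi.Bounds
import Mathlib.Analysis.Real.Pi.Leibniz
import Mathlib.Analysis.SpecialFunctions.Log.Monotone
import Mathlib.Data.Finset.NatDivisors
import Mathlib.Data.Set.Card.Arithmetic
import Mathlib.FieldTheory.Finite.Extension
import Mathlib.NumberTheory.AbelSummation
import Mathlib.NumberTheory.Basic
import Mathlib.NumberTheory.Bertrand
import Mathlib.NumberTheory.Chebyshev
import Mathlib.NumberTheory.Harmonic.Bounds
import Mathlib.NumberTheory.JacobiSum.Basic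
import Mathlib.NumberTheory.LSeries.DirichletContinuation
import Mathlib.NumberTheory.LSeries.HurwitzZetaValues
import Mathlib.NumberTheory.LSeries.PrimesInAP
import Mathlib.NumberTheory.LegendreSymbol.JacobiSymbol
import Mathlib.NumberTheory.SumTwoSquares
import Mathlib.Tactic
import Pool.Agent.Lib.MP_0e0027_nt.Kloosterman

/-!
Group W: the Weil bound for Kloosterman sums modulo a prime, by Stepanov's method.
Plan: team-store `MP_0e0027_plan.md`, section W.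
-/

set_option autoImplicit false

open Finset Polynomial

namespace Pool.Agent.Lib.MP_0e0027_nt.Ex

/-- the Kloosterman sum over a finite field `F` of characteristic `p`, with parameter `a`
in the prime field -/
noncomputable def KlF (p : ℕ) [Fact p.Prime] (F : Type) [Field F] [Fintype F] [DecidableEq F]
    [Algebra (ZMod p) F] (a : ZMod p) : ℂ :=
  ∑ x : F, if x = 0 then 0 else
    ZMod.stdAddChar (Algebra.trace (ZMod p) F (x + algebraMap (ZMod p) F a * x⁻¹))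

/-- the discriminant `(y^p - y + c)^2 - 4 a` -/
def Dy {F : Type} [Field F] (p : ℕ) (a c y : F) : F := (y ^ p - y + c) ^ 2 - 4 * a

/-- monic polynomials of degree `m` over `ZMod p` -/
noncomputable def monics (p m : ℕ) [Fact p.Prime] : Finset (ZMod p)[X] := by
  classical exact
  (univ : Finset (Fin m → ZMod p)).image (fun c ↦ X ^ m + ∑ i : Fin m, C (c i) * X ^ (i : ℕ))

/-- the completely multiplicative function on monic polynomials:
`f ↦ ψ(∑ x_i + a ∑ 1 / x_i)` over the roots `x_i`, and `0` if `f(0) = 0` -/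
noncomputable def Lam {p : ℕ} [Fact p.Prime] (a : ZMod p) (f : (ZMod p)[X]) : ℂ :=
  if f.coeff 0 = 0 then 0 else ZMod.stdAddChar (-f.nextCoeff - a * f.coeff 1 / f.coeff 0)

noncomputable def Asum {p : ℕ} [Fact p.Prime] (a : ZMod p) (m : ℕ) : ℂ := ∑ f ∈ monics p m, Lam a f

/-- the sum over monic irreducible polynomials of degree dividing `d` -/
noncomputable def Kirr {p : ℕ} [Fact p.Prime] (a : ZMod p) (d : ℕ) : ℂ := by
  classical exact
  ∑ m ∈ d.divisors, ∑ f ∈ (monics p m).filter (fun f ↦ Irreducible f), (m : ℂ) * Lam a f ^ (d / m)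

/-- W1: additive Hilbert 90 with multiplicities -/
def StW1 : Prop := ∀ (p : ℕ) [Fact p.Prime] (F : Type) [Field F] [Fintype F] [DecidableEq F]
    [Algebra (ZMod p) F] (w : F),
    (univ.filter (fun y : F ↦ y ^ p - y = w)).card =
      if Algebra.trace (ZMod p) F w = 0 then p else 0

/-- W2a: the linear algebra (pigeonhole) step of Stepanov's method. `D` is `Δ^((Q-1)/2)`. -/
def StW2a : Prop := ∀ (p : ℕ) [Fact p.Prime] (F : Type) [Field F] [Fintype F] [CharP F p]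
    (μ : ℕ) (D : F[X]), 3 ≤ p → 3 ≤ μ → Fintype.card F = p ^ (2 * μ) →
    D.natDegree ≤ p * (p ^ μ - 1) →
    ∃ ν ν' : ℕ → F[X], (∃ j ≤ (p ^ μ - 1) / 2 + p, ν j ≠ 0 ∨ ν' j ≠ 0) ∧
      (∀ j, (ν j).natDegree ≤ (p ^ μ - 1) / 2 - p) ∧ (∀ j, (ν' j).natDegree ≤ (p ^ μ - 1) / 2) ∧
      D * (∑ j ∈ range ((p ^ μ - 1) / 2 + p + 1), ν j ^ (p ^ μ) * X ^ j) +
        (∑ j ∈ range ((p ^ μ - 1) / 2 + p + 1), ν' j ^ (p ^ μ) * X ^ j) = 0

/-- W2b: the auxiliary polynomial does not vanish -/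
def StW2b : Prop := ∀ (p : ℕ) [Fact p.Prime] (F : Type) [Field F] [Fintype F] [CharP F p]
    (μ : ℕ) (a c : F), 3 ≤ p → 3 ≤ μ → a ≠ 0 → c ^ 2 ≠ 4 * a →
    ∀ ν ν' : ℕ → F[X], (∃ j ≤ (p ^ μ - 1) / 2 + p, ν j ≠ 0 ∨ ν' j ≠ 0) →
      (∀ j, (ν j).natDegree ≤ (p ^ μ - 1) / 2 - p) → (∀ j, (ν' j).natDegree ≤ (p ^ μ - 1) / 2) →
      (∑ j ∈ range ((p ^ μ - 1) / 2 + p + 1), ν j * X ^ (j * p ^ μ)) +
        ((X ^ p - X + C c) ^ 2 - C (4 * a)) ^ ((p ^ μ - 1) / 2) *
        (∑ j ∈ range ((p ^ μ - 1) / 2 + p + 1), ν' j * X ^ (j * p ^ μ)) ≠ 0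

/-- W2: the number of `y` such that `Δ(y)` is a nonzero square -/
def StW2 : Prop := ∀ (p : ℕ) [Fact p.Prime] (F : Type) [Field F] [Fintype F] [DecidableEq F]
    [Algebra (ZMod p) F] (μ : ℕ) (a c : F), 3 ≤ p → 3 ≤ μ → Fintype.card F = p ^ (2 * μ) →
    a ≠ 0 → c ^ 2 ≠ 4 * a →
    ∀ S : Finset F, (∀ y ∈ S, Dy p a c y ≠ 0 ∧ IsSquare (Dy p a c y)) →
      2 * S.card ≤ p ^ (2 * μ) + 4 * p * p ^ μ

/-- W3: the bound for Kloosterman sums over large fields of square order -/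
def StW3 : Prop := ∀ (p : ℕ) [Fact p.Prime] (F : Type) [Field F] [Fintype F] [DecidableEq F]
    [Algebra (ZMod p) F] (μ : ℕ) (a : ZMod p), 3 ≤ p → 3 ≤ μ → Fintype.card F = p ^ (2 * μ) →
    a ≠ 0 → ‖KlF p F a‖ ≤ 6 * (p : ℝ) ^ 2 * (p : ℝ) ^ μ

/-- W4a: Newton-type identity from unique factorisation of monic polynomials -/
def StW4a : Prop := ∀ (p : ℕ) [Fact p.Prime] (a : ZMod p) (n : ℕ), 1 ≤ n →
    (n : ℂ) * Asum a n = ∑ d ∈ Icc 1 n, Kirr a d * Asum a (n - d)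

/-- W4b: the sums over monic polynomials of given degree -/
def StW4b : Prop := ∀ (p : ℕ) [Fact p.Prime] (a : ZMod p), a ≠ 0 →
    Asum a 0 = 1 ∧ Asum a 1 = Kl (1 : ZMod p) a ∧ Asum a 2 = p ∧ ∀ m, 3 ≤ m → Asum a m = 0

/-- W4c: the sum over irreducible polynomials is the Kloosterman sum of the extension -/
def StW4c : Prop := ∀ (p : ℕ) [Fact p.Prime] (F : Type) [Field F] [Fintype F] [DecidableEq F]
    [Algebra (ZMod p) F] (d : ℕ) (a : ZMod p), 1 ≤ d → Fintype.card F = p ^ d →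
    Kirr a d = KlF p F a

/-- W: the Weil bound -/
def StWeil : Prop := ∀ (p : ℕ) [Fact p.Prime] (u v : ZMod p), 3 ≤ p → u ≠ 0 → v ≠ 0 →
    ‖Kl u v‖ ≤ 2 * Real.sqrt p

end Pool.Agent.Lib.MP_0e0027_nt.Ex
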